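import Pool.Agent.helper76.UF.Spec

set_option autoImplicit false

/-!
# Project UF (MP_37e5fa_nt), row TOW
-/

namespace Pool.Agent.UF

open Finset Polynomial NumberField

theorem TOW_small (m D : ℕ) (hm : m ≤ 4) (hD : D ∣ fer m) (h1 : 1 < D) (h2 : D < fer m) :
    False := by
  have hp : Nat.Prime (fer m) := by
    unfold fer
    interval_cases m <;> norm_num
  rcases (Nat.dvd_prime hp).1 hD with h | h <;> omega

theorem TOW_core {R : Type} [CommRing R] [IsDomain R] (b : R ≃+* R) (hbb : ∀ a, b (b a) = a)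
    (f δ ε u : R) (hf : f ≠ 0) (hfe : δ * ε = f) (hco : IsCoprime f (b f)) (hu : b u * u = 1)
    (h : b δ * ε = u * f ∨ b δ * ε = u * b f) : IsUnit δ ∨ IsUnit ε := by
  have hδ : δ ≠ 0 := fun h => hf (by rw [← hfe, h, zero_mul])
  have hε : ε ≠ 0 := fun h => hf (by rw [← hfe, h, mul_zero])
  have hbδ : b δ ≠ 0 := fun h => hδ (by rw [← hbb δ, h, map_zero])
  rcases h with h | h
  · left
    have h1 : b δ = u * δ := by
      apply mul_right_cancel₀ hε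
      rw [h, ← hfe]
      ring
    have h2 : δ ∣ b f := by
      rw [← hfe, map_mul]
      refine Dvd.dvd.mul_right ?_ _
      exact ⟨u, by rw [h1, mul_comm]⟩
    exact hco.isUnit_of_dvd' ⟨ε, hfe.symm⟩ h2
  · right
    have h1 : ε = u * b ε := by
      apply mul_left_cancel₀ hbδ
      rw [h, ← hfe, map_mul]
      ring
    have h2 : ε ∣ b f := by
      rw [← hfe, map_mul]
      refine Dvd.dvd.mul_left ?_ _
      refine ⟨b u, ?_⟩
      calc b ε = (b u * u) * b ε := by rw [hu, one_mul]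
        _ = (u * b ε) * b u := by ring
        _ = ε * b u := by rw [← h1]
    exact hco.isUnit_of_dvd' ⟨δ, by rw [← hfe, mul_comm]⟩ h2

theorem TOW (h1 : BAS_stmt) (h2 : BIN_stmt) (h3 : CPR_stmt) (h4 : QUK_stmt) (h5 : PDI_stmt)
    (h6 : U_stmt) (h7 : TW0_stmt) (h8 : TWA_stmt) (h9 : TWC_stmt) (h10 : TWD_stmt) :
    TOW_stmt := by
  intro m D hD hD1 hD2 k hk L _ _ _ y hy hprin
  by_cases hm : m ≤ 4
  · exact TOW_small m D hm hD hD1 hD2
  obtain ⟨κ, rfl⟩ : ∃ κ, k = κ + 1 := ⟨k - 1, by omega⟩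
  have hC : Cyc (2 ^ κ) y := h1 κ L y hy
  obtain ⟨b, hb, hcomm⟩ := h2 (2 ^ κ) (𝓞 L) y Nat.one_le_two_pow hC
  obtain ⟨H, hH⟩ : ∃ H, κ = H + m := ⟨κ - m, by omega⟩
  have hHk : κ + 1 - (m + 1) = H := by omega
  rw [hHk] at hprin
  have hpow : 2 ^ H * 2 ^ m = 2 ^ κ := by rw [hH, pow_add]
  have hC' : Cyc (2 ^ H * 2 ^ m) y := by rw [hpow]; exact hC
  set x : 𝓞 L := y ^ (2 ^ H) with hx
  set f : 𝓞 L := ff 2 y (2 ^ H) with hf
  have hfx : f = 2 - x := by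
    rw [hf, ff, Nat.cast_ofNat]
  obtain ⟨q1, q2⟩ := h4 (2 ^ m) (2 ^ H) 2 (𝓞 L) y Nat.one_le_two_pow Nat.one_le_two_pow hC'
  have hp := h5 (𝓞 L) f (fer m) D q1 q2 hD hD1 hD2
  have hf0 : f ≠ 0 := by
    intro h0
    rw [← hf, h0, zero_dvd_iff, Nat.cast_eq_zero] at q2
    exact absurd q2 (Nat.succ_ne_zero _)
  obtain ⟨δ, hδ⟩ := hprin.principal
  have hδ' : Ideal.span {(D : 𝓞 L), f} = Ideal.span {δ} := hδ
  have hfm : f ∈ Ideal.span {δ} := by
    rw [← hδ']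
    exact Ideal.subset_span (by simp)
  obtain ⟨ε, hε⟩ := Ideal.mem_span_singleton.1 hfm
  have hfe : δ * ε = f := hε.symm
  have hbx : IsBar x b := by
    refine ⟨?_, hb.2⟩
    rw [hx, map_pow, ← mul_pow, hb.1, one_pow]
  have hBx : Bas (2 ^ m) x := h7 (2 ^ m) (2 ^ H) (𝓞 L) y Nat.one_le_two_pow hC'.1
  have hxm : x ^ (2 ^ m) = -1 := hBx.1
  have hy1 : y ^ (2 ^ (κ + 1)) = 1 := by
    rw [pow_succ, pow_mul, hC.1.1]
    norm_num
  have hδ0 : δ ≠ 0 := fun h => hf0 (by rw [← hfe, h, zero_mul])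
  have hε0 : ε ≠ 0 := fun h => hf0 (by rw [← hfe, h, mul_zero])
  have hbδ : b δ ≠ 0 := fun h => hδ0 (by rw [← hb.2 δ, h, map_zero])
  have hρ0 : b δ * ε ≠ 0 := mul_ne_zero hbδ hε0
  have hρρ : (b δ * ε) * b (b δ * ε) = (2 - x) * (2 - b x) := by
    have e1 : (2 : 𝓞 L) - b x = b f := by rw [hfx, map_sub, map_ofNat]
    rw [e1, ← hfx, ← hfe, map_mul, map_mul, hb.2]
    ring
  have hτ : ∀ h < H, ∀ τ : 𝓞 L ≃+* 𝓞 L, τ y = y ^ (1 + 2 ^ (κ - h)) →
      ∃ c : ℕ, τ (b δ * ε) = y ^ c * (b δ * ε) := by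
    intro h hh τ ht
    have e1 : τ x = x := by
      rw [hx, map_pow, ht, ← pow_mul, add_mul, one_mul, pow_add]
      have e2 : 2 ^ (κ - h) * 2 ^ H = 2 ^ (κ + 1) * 2 ^ (H - h - 1) := by
        rw [← pow_add, ← pow_add]
        congr 1
        omega
      rw [e2, pow_mul y (2 ^ (κ + 1)), hy1, one_pow, mul_one]
    have e3 : τ f = f := by rw [hfx, map_sub, map_ofNat, e1]
    obtain ⟨w, hw1, hw2⟩ := h10 (𝓞 L) b τ hb.2 (hcomm _ τ ht) D f δ ε hf0 e3 hδ' hfe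
    obtain ⟨i, hi⟩ := h8 (2 ^ κ) (𝓞 L) y b Nat.one_le_two_pow hC hb w hw1
    exact ⟨i, by rw [hw2, hi]⟩
  obtain ⟨i, d, hd⟩ := h9 κ H (𝓞 L) y (by omega) hC (b δ * ε) hρ0 hτ
  have hκH : κ - H = m := by omega
  rw [hκH, ← hx] at hd
  have hbyi : y ^ i * b (y ^ i) = 1 := by
    rw [map_pow, ← mul_pow, mul_comm, hb.1, one_pow]
  have hρ2 : (∑ j ∈ range (2 ^ m), (d j : 𝓞 L) * x ^ j) *
      b (∑ j ∈ range (2 ^ m), (d j : 𝓞 L) * x ^ j) = (2 - x) * (2 - b x) := by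
    rw [← hρρ, hd, map_mul]
    generalize (∑ j ∈ range (2 ^ m), (d j : 𝓞 L) * x ^ j) = r
    calc r * b r = (y ^ i * b (y ^ i)) * (r * b r) := by rw [hbyi, one_mul]
      _ = y ^ i * r * (b (y ^ i) * b r) := by ring
  obtain ⟨j, hj⟩ := h6 m (𝓞 L) x b (by omega) hBx hbx d _ rfl hρ2
  have hxodd : b x = x ^ (2 ^ (m + 1) - 1) := by
    have e1 : x ^ (2 ^ (m + 1) - 1) * x = 1 := by
      rw [← pow_succ, Nat.sub_add_cancel Nat.one_le_two_pow, pow_succ, pow_mul, hxm]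
      norm_num
    have e2 : b x * x = 1 := hbx.1
    have hx0 : x ≠ 0 := by
      intro h0
      rw [h0, mul_zero] at e1
      exact zero_ne_one e1
    exact mul_right_cancel₀ hx0 (e2.trans e1.symm)
  have hco : IsCoprime f (b f) := by
    have e1 := h3 m 0 (𝓞 L) x hxm 1 (2 ^ (m + 1) - 1) odd_one (by
      apply Nat.Even.sub_odd Nat.one_le_two_pow _ odd_one
      exact Nat.even_pow.2 ⟨even_two, by omega⟩) (by
      intro hdiv
      have e2 : (((2 ^ (m + 1) - 1 : ℕ)) : ℤ) = (2 : ℤ) ^ (m + 1) - 1 := by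
        rw [Nat.cast_sub Nat.one_le_two_pow]
        push_cast
        ring
      rw [e2] at hdiv
      have e3 : (2 : ℤ) ^ (m + 1) ∣ 2 := by
        have e4 : ((1 : ℕ) : ℤ) - ((2 : ℤ) ^ (m + 1) - 1) = 2 - (2 : ℤ) ^ (m + 1) := by
          push_cast
          ring
        rw [e4] at hdiv
        exact (dvd_sub_self_right).1 hdiv
      have e5 := Int.le_of_dvd (by norm_num) e3
      have e6 : (2 : ℤ) ^ 2 ≤ 2 ^ (m + 1) := pow_le_pow_right₀ (by norm_num) (by omega)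
      norm_num at e6
      omega)
    have e7 : ff (2 ^ (2 ^ 0)) x 1 = f := by
      rw [hfx, ff, pow_one]
      norm_num
    have e8 : ff (2 ^ (2 ^ 0)) x (2 ^ (m + 1) - 1) = b f := by
      rw [hfx, ff, map_sub, map_ofNat, hxodd]
      norm_num
    rw [e7, e8] at e1
    exact e1
  have hbf : (2 : 𝓞 L) - b x = b f := by rw [hfx, map_sub, map_ofNat]
  have hu : b (y ^ i * x ^ j) * (y ^ i * x ^ j) = 1 := by
    rw [map_mul, map_pow, map_pow]
    calc b y ^ i * b x ^ j * (y ^ i * x ^ j) = (b y * y) ^ i * (b x * x) ^ j := by ring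
      _ = 1 := by rw [hb.1, hbx.1, one_pow, one_pow, one_mul]
  have hcase : IsUnit δ ∨ IsUnit ε := by
    refine TOW_core b hb.2 f δ ε (y ^ i * x ^ j) hf0 hfe hco hu ?_
    rcases hj with hj | hj
    · left
      rw [hd, hj, hfx]
      ring
    · right
      rw [hd, hj, hbf]
      ring
  rcases hcase with hc | hc
  · apply hp.1
    rw [hδ']
    exact Ideal.span_singleton_eq_top.2 hc
  · apply hp.2
    rw [hδ', Ideal.span_singleton_eq_span_singleton]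
    obtain ⟨w, hw⟩ := hc
    exact ⟨w, by rw [hw]; exact hfe⟩

end Pool.Agent.UF
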