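import Pool.Agent.helper76.UF.Spec

set_option autoImplicit false

/-!
# Project UF (MP_37e5fa_nt), row TWC
-/

namespace Pool.Agent.UF

open Finset Polynomial NumberField

theorem TWC (h : TWB_stmt) : TWC_stmt := by
  intro κ H R _ _ y
  induction H with
  | zero =>
    intro _ hC ρ _ _
    obtain ⟨c, hc⟩ := hC.2.1 ρ
    refine ⟨0, c, ?_⟩
    rw [pow_zero, pow_zero, pow_one, one_mul, Nat.sub_zero]
    exact hc
  | succ H ih =>
    intro hκ hC ρ hρ hτ
    obtain ⟨i, d, hd⟩ := ih (by omega) hC ρ hρ (fun h' hh τ ht => hτ h' (by omega) τ ht)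
    have hodd : Odd (1 + 2 ^ (κ - H)) := by
      have h1 : Even (2 ^ (κ - H)) := (Nat.even_pow.2 ⟨even_two, by omega⟩)
      exact odd_one.add_even h1
    obtain ⟨τ, ht⟩ := hC.2.2 _ hodd
    obtain ⟨c, hc⟩ := hτ H (by omega) τ ht
    exact h κ H R y (by omega) hC τ ht ρ hρ ⟨c, hc⟩ ⟨i, d, hd⟩

end Pool.Agent.UF
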